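import Mathlib

namespace Pool.Agent.H.MP_44674b_co.D

open Finset

variable {X : Type} [Fintype X] [DecidableEq X] {d : ℕ}

/-- `r x y = i` says that `(x, y)` lies in the relation `R i` of a `d`-class symmetric scheme
with intersection numbers `p i j k` -/
structure IsScheme (r : X → X → Fin (d + 1))
    (p : Fin (d + 1) → Fin (d + 1) → Fin (d + 1) → ℕ) : Prop where
  surj : ∀ i, ∃ x y, r x y = i
  diag : ∀ x y, r x y = 0 ↔ x = y
  symm : ∀ x y, r x y = r y x
  reg : ∀ i j x y, (univ.filter fun z => r x z = i ∧ r z y = j).card = p i j (r x y)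

/-- the adjacency matrix `A i` -/
def adj (r : X → X → Fin (d + 1)) (i : Fin (d + 1)) : Matrix X X ℂ :=
  Matrix.of fun x y => if r x y = i then 1 else 0

/-- the Bose-Mesner algebra -/
def BM (r : X → X → Fin (d + 1)) : Submodule ℂ (Matrix X X ℂ) :=
  Submodule.span ℂ (Set.range (adj r))

/-- the triangle tensor -/
def tD (L M N : Matrix X X ℂ) : X → X → X → ℂ := fun x y z => L x z * M x y * N y z

/-- the star tensor -/
def tY (L M N : Matrix X X ℂ) : X → X → X → ℂ := fun x y z => ∑ u, L x u * M y u * N z u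

/-- exactly triply regular: the triangle tensors and the star tensors have the same span -/
def ExactlyTriplyRegular (r : X → X → Fin (d + 1)) : Prop :=
  Submodule.span ℂ {t | ∃ L ∈ BM r, ∃ M ∈ BM r, ∃ N ∈ BM r, t = tY L M N} =
    Submodule.span ℂ {t | ∃ L ∈ BM r, ∃ M ∈ BM r, ∃ N ∈ BM r, t = tD L M N}

/-- `E 0, ..., E d` are the primitive idempotents of the Bose-Mesner algebra, `E 0 = J / |X|` -/
def PrimIdem (r : X → X → Fin (d + 1)) (E : Fin (d + 1) → Matrix X X ℂ) : Prop :=
  (∀ j, E j ∈ BM r ∧ E j ≠ 0) ∧ (∀ j k, E j * E k = if j = k then E j else 0) ∧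
    ∑ j, E j = 1 ∧ E 0 = Matrix.of fun _ _ => (Fintype.card X : ℂ)⁻¹

end Pool.Agent.H.MP_44674b_co.D
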