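import Pool.Agent.H.MP_44674b_co.D

namespace Pool.Agent.H.MP_44674b_co.D

open Finset

variable {X : Type} [Fintype X] [DecidableEq X] {d : ℕ}

abbrev I3 (d : ℕ) := Fin (d + 1) × Fin (d + 1) × Fin (d + 1)

def yy (r : X → X → Fin (d + 1)) (p : I3 d) (x y z : X) : ℤ :=
  ∑ u, if p = (r x u, r y u, r z u) then 1 else 0

omit [Fintype X] [DecidableEq X] in
lemma adj_mem (r : X → X → Fin (d + 1)) (i : Fin (d + 1)) : adj r i ∈ BM r :=
  Submodule.subset_span ⟨i, rfl⟩

omit [Fintype X] [DecidableEq X] in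
lemma expand {r : X → X → Fin (d + 1)} {L : Matrix X X ℂ} (h : L ∈ BM r) :
    ∃ a : Fin (d + 1) → ℂ, ∀ x y, L x y = a (r x y) := by
  obtain ⟨a, rfl⟩ := (Submodule.mem_span_range_iff_exists_fun ℂ).1 h
  exact ⟨a, fun x y => by simp [Matrix.sum_apply, adj]⟩

omit [Fintype X] [DecidableEq X] in
lemma of_mem (r : X → X → Fin (d + 1)) (a : Fin (d + 1) → ℂ) :
    (Matrix.of fun x y => a (r x y)) ∈ BM r :=
  (Submodule.mem_span_range_iff_exists_fun ℂ).2 ⟨a, by ext x y; simp [Matrix.sum_apply, adj]⟩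

omit [Fintype X] [DecidableEq X] in
lemma tD_adj (r : X → X → Fin (d + 1)) (p : I3 d) (x y z : X) :
    tD (adj r p.1) (adj r p.2.1) (adj r p.2.2) x y z =
      if p = (r x z, r x y, r y z) then 1 else 0 := by
  obtain ⟨i, j, k⟩ := p
  simp only [tD, adj, Matrix.of_apply, Prod.mk.injEq, @eq_comm _ i, @eq_comm _ j, @eq_comm _ k]
  by_cases a : r x z = i <;> by_cases b : r x y = j <;> by_cases c : r y z = k <;> simp [a, b, c]

omit [DecidableEq X] in
lemma tY_adj (r : X → X → Fin (d + 1)) (p : I3 d) (x y z : X) :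
    tY (adj r p.1) (adj r p.2.1) (adj r p.2.2) x y z = yy r p x y z := by
  obtain ⟨i, j, k⟩ := p
  simp only [tY, yy, adj, Matrix.of_apply, Prod.mk.injEq, @eq_comm _ i, @eq_comm _ j, @eq_comm _ k]
  push_cast
  refine sum_congr rfl fun u _ => ?_
  by_cases a : r x u = i <;> by_cases b : r y u = j <;> by_cases c : r z u = k <;> simp [a, b, c]

omit [DecidableEq X] in
lemma etr (r : X → X → Fin (d + 1)) (NN CC : I3 d → I3 d → ℤ) (D : ℤ) (hD : D ≠ 0)
    (h1 : ∀ p x y z, yy r p x y z = NN p (r x z, r x y, r y z))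
    (h2 : ∀ p x y z, ∑ q, CC p q * NN q (r x z, r x y, r y z) =
      if p = (r x z, r x y, r y z) then D else 0) : ExactlyTriplyRegular r := by
  have hD' : (D : ℂ) ≠ 0 := by exact_mod_cast hD
  apply le_antisymm
  · refine Submodule.span_le.2 ?_
    rintro t ⟨L, hL, M, hM, N, hN, rfl⟩
    obtain ⟨a, ha⟩ := expand hL
    obtain ⟨b, hb⟩ := expand hM
    obtain ⟨c, hc⟩ := expand hN
    have : tY L M N = ∑ q : I3 d, (∑ p : I3 d, a p.1 * b p.2.1 * c p.2.2 * NN p q) •
        tD (adj r q.1) (adj r q.2.1) (adj r q.2.2) := by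
      ext x y z
      simp only [Finset.sum_apply, Pi.smul_apply, smul_eq_mul, tD_adj, mul_ite, mul_one, mul_zero,
        sum_ite_eq', mem_univ, if_true, ← h1, yy, tY, ha, hb, hc]
      push_cast
      simp only [mul_sum]
      rw [sum_comm]
      simp
    rw [this]
    exact Submodule.sum_mem _ fun q _ => Submodule.smul_mem _ _
      (Submodule.subset_span ⟨_, adj_mem r _, _, adj_mem r _, _, adj_mem r _, rfl⟩)
  · refine Submodule.span_le.2 ?_
    rintro t ⟨L, hL, M, hM, N, hN, rfl⟩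
    obtain ⟨a, ha⟩ := expand hL
    obtain ⟨b, hb⟩ := expand hM
    obtain ⟨c, hc⟩ := expand hN
    have : tD L M N = ∑ p : I3 d, ∑ q : I3 d, (a p.1 * b p.2.1 * c p.2.2 * (D : ℂ)⁻¹ * CC p q) •
        tY (adj r q.1) (adj r q.2.1) (adj r q.2.2) := by
      ext x y z
      have k : ∀ p, ∑ q, (CC p q : ℂ) * NN q (r x z, r x y, r y z) =
          if p = (r x z, r x y, r y z) then (D : ℂ) else 0 := fun p => by exact_mod_cast h2 p x y z
      simp only [Finset.sum_apply, Pi.smul_apply, smul_eq_mul, tY_adj, h1, mul_assoc, ← mul_sum, k,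
        mul_ite, mul_zero, sum_ite_eq', mem_univ, if_true, tD, ha, hb, hc, inv_mul_cancel₀ hD',
        mul_one]
    rw [this]
    exact Submodule.sum_mem _ fun p _ => Submodule.sum_mem _ fun q _ => Submodule.smul_mem _ _
      (Submodule.subset_span ⟨_, adj_mem r _, _, adj_mem r _, _, adj_mem r _, rfl⟩)

lemma shift {G : Type} [Fintype G] [AddCommGroup G] (ρ : G → Fin (d + 1)) (p : I3 d) (x y z : G) :
    yy (fun a b => ρ (a - b)) p x y z = yy (fun a b => ρ (a - b)) p 0 (y - x) (z - x) := by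
  unfold yy
  rw [← Equiv.sum_comp (Equiv.addRight x)]
  refine sum_congr rfl fun u _ => if_congr ?_ rfl rfl
  simp only [Equiv.coe_addRight]
  rw [show x - (u + x) = 0 - u by abel, show y - (u + x) = y - x - u by abel,
    show z - (u + x) = z - x - u by abel]

lemma prim (r : X → X → Fin (d + 1)) (Q : Fin (d + 1) → Fin (d + 1) → ℤ) [Nonempty X]
    (h0 : ∀ x, r x x = 0) (h1 : ∀ j, Q 0 j ≠ 0) (h2 : ∀ i, Q i 0 = 1)
    (h3 : ∀ j k x y, ∑ u, Q (r x u) j * Q (r u y) k =
      if j = k then Fintype.card X * Q (r x y) j else 0)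
    (h4 : ∀ x y, ∑ j, Q (r x y) j = if x = y then (Fintype.card X : ℤ) else 0) :
    PrimIdem r fun j => Matrix.of fun x y => (Fintype.card X : ℂ)⁻¹ * Q (r x y) j := by
  have hn : (Fintype.card X : ℂ) ≠ 0 := by exact_mod_cast Fintype.card_ne_zero
  refine ⟨fun j => ⟨of_mem r fun i => (Fintype.card X : ℂ)⁻¹ * Q i j, fun e => ?_⟩,
    fun j k => ?_, ?_, ?_⟩
  · obtain ⟨x⟩ := ‹Nonempty X›
    have := congrFun (congrFun e x) x
    simp [h0, hn, h1] at this
  · ext x y
    have e : ∑ u, (Q (r x u) j : ℂ) * Q (r u y) k =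
        if j = k then Fintype.card X * (Q (r x y) j : ℂ) else 0 := by exact_mod_cast h3 j k x y
    have : ∑ u, (Fintype.card X : ℂ)⁻¹ * Q (r x u) j * ((Fintype.card X : ℂ)⁻¹ * Q (r u y) k) =
        (Fintype.card X : ℂ)⁻¹ * (Fintype.card X : ℂ)⁻¹ * ∑ u, (Q (r x u) j : ℂ) * Q (r u y) k := by
      rw [mul_sum]; exact sum_congr rfl fun u _ => by ring
    simp only [Matrix.mul_apply, Matrix.of_apply, this, e]
    split_ifs
    · simp only [Matrix.of_apply]; field_simp
    · simp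
  · ext x y
    have e : ∑ j, (Q (r x y) j : ℂ) = if x = y then (Fintype.card X : ℂ) else 0 := by
      exact_mod_cast h4 x y
    simp only [Matrix.sum_apply, Matrix.of_apply, ← mul_sum, e, Matrix.one_apply]
    split_ifs <;> simp [hn]
  · ext x y; simp [h2]

end Pool.Agent.H.MP_44674b_co.D
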