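import Mathlib

namespace Pool.Agent.H.MP_44674b_co

open Finset

def rr (x y : Fin 6) : Fin 3 := if x = y then 0 else if x.val / 3 = y.val / 3 then 1 else 2

abbrev I3 := Fin 3 × Fin 3 × Fin 3

def ix (p : I3) : ℕ := 9 * p.1.val + 3 * p.2.1.val + p.2.2.val
def aa (i : Fin 3) (x y : Fin 6) : ℤ := if rr x y = i then 1 else 0
def dd (p : I3) (x y z : Fin 6) : ℤ := aa p.1 x z * aa p.2.1 x y * aa p.2.2 y z
def yy (p : I3) (x y z : Fin 6) : ℤ := ∑ u, aa p.1 x u * aa p.2.1 y u * aa p.2.2 z u

def TC : ℕ := 0x888888888888888888888888888888888887888888888988888888888888889888888888888888888888888888888888888888988888888888888888888888888888888888888888888888888888888888888888888888888888888888988888888888888888888888888888888888888888888888888888888888888888888888888898888888888888888888888888888888888888888888888888888888888888888888888888888888888888888888888888888888887888898888888888888888888889888888888888888888888888888888888888888888888888888888888888898888888888888888888888888888888888888888888888889888888888888888888888888888888888888888888888888888888888888888888888888888888888888888888888888888888888888889888888888888888888888888888888888888888888888888888888888888888888888888888888888888888888888888888888888888889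
def CC (p q : I3) : ℤ := (((TC >>> (4 * (27 * ix p + ix q))) % 16 : ℕ) : ℤ) - 8
def TN : ℕ := 0xf300303020800000000000410000000000000020000800006000000000000100000000000000000400010000100000000000001000000000000280000000000000000400020000000010000000000420000000000000000044004080000004100000010000000000000000004000100000000040000005000000000000000010000000000000000010000010000000000000000005000000000000000004000010000000000000000004000000000000000001
def NN (p q : I3) : ℤ := (((TN >>> (2 * (27 * ix p + ix q))) % 4 : ℕ) : ℤ)

set_option maxRecDepth 100000 in
lemma h1 : ∀ p x y z, yy p x y z = NN p (rr x z, rr x y, rr y z) := by decide +kernel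

def ok (t : I3) : Bool := ix t ∈ [0, 4, 8, 10, 12, 13, 17, 20, 23, 24, 25]

set_option maxRecDepth 100000 in
lemma h0 : ∀ x y z, ok (rr x z, rr x y, rr y z) = true := by decide +kernel

set_option maxRecDepth 100000 in
lemma h2 : ∀ p t : I3, ok t = true → ∑ q, CC p q * NN q t = if p = t then 1 else 0 := by
  decide +kernel

set_option maxRecDepth 100000 in
lemma h3 : ∀ q x y z, dd q x y z = if q = (rr x z, rr x y, rr y z) then 1 else 0 := by
  decide +kernel

end Pool.Agent.H.MP_44674b_co
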